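import Pool.Agent.Z700.Defs3

/-!
# Elementary facts about the admissible sets (second stage of Z700)
-/

set_option autoImplicit false

namespace Pool.Agent.Z141

open Finset
open Pool.Agent.Z700 (pr)
open Pool.Agent.Z701

theorem gd_prime {D : Finset ℕ} (hD : Gd D) {p : ℕ} (hp : p ∈ D) : p.Prime := by
  rcases hD.1 p hp with h | h
  · exact h.1
  · exact h.1

theorem gd_mod8 {D : Finset ℕ} (hD : Gd D) {p : ℕ} (hp : p ∈ D) : p % 8 = 1 ∨ p % 8 = 5 := by
  rcases hD.1 p hp with h | h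
  · exact Or.inl h.2.1
  · exact Or.inr h.2.1

/-- the product over the inert primes of a constant -/
theorem prod_inr {R : Type*} [CommMonoid R] (D : Finset ℕ) (c : R) :
    ∏ p ∈ D, (if p % 8 = 5 then c else 1) = c ^ (inr D).card := by
  unfold inr
  rw [Finset.prod_ite, Finset.prod_const, Finset.prod_const_one, mul_one]

theorem sq7_sq {p : ℕ} (hp : Sp p ∨ Nr p) :
    (if p % 8 = 5 then (3 : ZMod 7) else 1) * sq7 p ^ 2 = (p : ZMod 7) := by
  have hc : (p : ZMod 7) = ((p % 7 : ℕ) : ZMod 7) := by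
    rw [ZMod.natCast_mod]
  rw [hc]
  unfold sq7
  rcases hp with ⟨_, h8, h7⟩ | ⟨_, h8, h7⟩
  · rw [if_neg (by omega)]
    rcases h7 with h | h | h <;> rw [h] <;> decide
  · rw [if_pos h8]
    rcases h7 with h | h | h <;> rw [h] <;> decide

/-- `be D` is a square root of `- 3 pr D` -/
theorem be_sq {D : Finset ℕ} (hD : Gd D) : be D ^ 2 = -(3 * (pr D : ZMod 7)) := by
  have h1 : (∏ p ∈ D, (if p % 8 = 5 then (3 : ZMod 7) else 1)) * ∏ p ∈ D, sq7 p ^ 2 =
      (pr D : ZMod 7) := by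
    rw [← Finset.prod_mul_distrib]
    unfold pr
    rw [Nat.cast_prod]
    exact Finset.prod_congr rfl fun p hp => sq7_sq (hD.1 p hp)
  rw [prod_inr, Finset.prod_pow] at h1
  obtain ⟨k, hk⟩ := hD.2
  have h2 : (inr D).card / 2 = k := by omega
  unfold be
  rw [h2, ← h1, hk]
  have h3 : -(3 * (3 ^ (k + k) * (∏ p ∈ D, sq7 p) ^ 2) : ZMod 7) =
      4 * (3 ^ (k + k) * (∏ p ∈ D, sq7 p) ^ 2) := by
    rw [← neg_mul]
    congr 1
  rw [h3, pow_add]
  have h4 : (2 : ZMod 7) ^ 2 = 4 := by decide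
  rw [mul_pow, mul_pow, h4]
  ring

/-- `be D ^ 2 = 4 pr D` -/
theorem be_sq4 {D : Finset ℕ} (hD : Gd D) : be D ^ 2 = 4 * (pr D : ZMod 7) := by
  rw [be_sq hD, ← neg_mul]
  congr 1

theorem sq7_ne (p : ℕ) : sq7 p ≠ 0 := by
  unfold sq7
  split_ifs <;> decide

theorem be_ne (D : Finset ℕ) : be D ≠ 0 := by
  have h2 : (2 : ZMod 7) ≠ 0 := by decide
  have h3 : (3 : ZMod 7) ≠ 0 := by decide
  have : Fact (Nat.Prime 7) := ⟨by norm_num⟩
  unfold be
  refine mul_ne_zero (mul_ne_zero h2 (pow_ne_zero _ h3)) ?_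
  rw [Finset.prod_ne_zero_iff]
  intro p _
  exact sq7_ne p

/-- `pr D = 1 mod 8` -/
theorem pr_mod8 {D : Finset ℕ} (hD : Gd D) : pr D % 8 = 1 := by
  have h1 : (pr D : ZMod 8) = 1 := by
    unfold pr
    rw [Nat.cast_prod]
    have h2 : ∏ p ∈ D, ((p : ℕ) : ZMod 8) = ∏ p ∈ D, (if p % 8 = 5 then (5 : ZMod 8) else 1) := by
      refine Finset.prod_congr rfl fun p hp => ?_
      have hc : (p : ZMod 8) = ((p % 8 : ℕ) : ZMod 8) := by
        rw [ZMod.natCast_mod]
      rcases gd_mod8 hD hp with h | h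
      · rw [if_neg (by omega), hc, h]
        rfl
      · rw [if_pos h, hc, h]
        rfl
    rw [h2, prod_inr]
    obtain ⟨k, hk⟩ := hD.2
    have h3 : (5 : ZMod 8) * 5 = 1 := by decide
    rw [hk, pow_add, ← mul_pow, h3, one_pow]
  have h2 : ((pr D : ℕ) : ZMod 8) = ((1 : ℕ) : ZMod 8) := by
    rw [h1, Nat.cast_one]
  have h3 := (ZMod.natCast_eq_natCast_iff' (pr D) 1 8).1 h2
  omega

theorem pr_pos {D : Finset ℕ} (hD : Gd D) : 0 < pr D := by
  have := pr_mod8 hD
  omega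

theorem pr_odd {D : Finset ℕ} (hD : Gd D) : Odd (pr D) := by
  rw [Nat.odd_iff]
  have := pr_mod8 hD
  omega

/-- a prime divisor of `pr D` is an element of `D` -/
theorem mem_of_dvd {D : Finset ℕ} (hD : ∀ p ∈ D, p.Prime) {q : ℕ} (hq : q.Prime)
    (h : q ∣ pr D) : q ∈ D := by
  unfold pr at h
  rw [hq.prime.dvd_finsetProd_iff] at h
  obtain ⟨p, hp, hqp⟩ := h
  rw [(Nat.prime_dvd_prime_iff_eq hq (hD p hp)).1 hqp]
  exact hp

/-- `pr D` is not divisible by `2`, `3`, `7` -/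
theorem not_three_dvd {D : Finset ℕ} (hD : Gd D) : ¬ 3 ∣ pr D := by
  intro h
  have h3 : 3 ∈ D := mem_of_dvd (fun p hp => gd_prime hD hp) (by norm_num) h
  rcases gd_mod8 hD h3 with h | h <;> norm_num at h

theorem not_seven_dvd {D : Finset ℕ} (hD : Gd D) : ¬ 7 ∣ pr D := by
  intro h
  have h7 : 7 ∈ D := mem_of_dvd (fun p hp => gd_prime hD hp) (by norm_num) h
  rcases gd_mod8 hD h7 with h | h <;> norm_num at h

/-- `pr D` is squarefree -/
theorem pr_squarefree {D : Finset ℕ} (hD : ∀ p ∈ D, p.Prime) : Squarefree (pr D) := by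
  induction D using Finset.induction_on with
  | empty => exact squarefree_one
  | insert a s ha ih =>
    have h1 : pr (insert a s) = a * pr s := by
      unfold pr
      rw [Finset.prod_insert ha]
    have hs : ∀ p ∈ s, p.Prime := fun p hp => hD p (Finset.mem_insert_of_mem hp)
    have hpa := hD a (Finset.mem_insert_self a s)
    rw [h1, Nat.squarefree_mul ((Nat.Prime.coprime_iff_not_dvd hpa).2
      fun h => ha (mem_of_dvd hs hpa h))]
    exact ⟨hpa.squarefree, ih hs⟩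

/-- `pr D` is not a square -/
theorem pr_not_sq {P : Finset ℕ} (hP : ∀ p ∈ P, p.Prime) (hne : P.Nonempty) (k : ℕ) :
    pr P ≠ k ^ 2 := by
  intro h
  obtain ⟨p, hp⟩ := hne
  have hpp := hP p hp
  have h1 : pr P = p * pr (P.erase p) := by
    unfold pr
    rw [Finset.mul_prod_erase P (fun x => x) hp]
  have h2 : p ∣ k := by
    apply hpp.dvd_of_dvd_pow (n := 2)
    rw [← h, h1]
    exact dvd_mul_right _ _
  obtain ⟨j, rfl⟩ := h2
  have h3 : p * pr (P.erase p) = p * (p * j ^ 2) := by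
    rw [← h1, h]; ring
  have h4 : pr (P.erase p) = p * j ^ 2 := Nat.eq_of_mul_eq_mul_left hpp.pos h3
  have h5 : p ∣ pr (P.erase p) := by rw [h4]; exact dvd_mul_right _ _
  have h6 := mem_of_dvd (fun q hq => hP q (Finset.mem_of_mem_erase hq)) hpp h5
  exact Finset.notMem_erase p P h6

end Pool.Agent.Z141
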