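import Pool.Agent.Z700.SG
import Pool.Agent.Z141.Base

/-!
# The sums over the vectors with a given line and orientation, general family (S_SG)
-/

set_option autoImplicit false

namespace Pool.Agent.Z141

open Finset Matrix
open Pool.Agent.Z700 (V3 vec chv Ln n0 ep sgl pr Sg)
open Pool.Agent.Z700.SGw
open Pool.Agent.Z701 (Gd be pii)

theorem t_SG (hJ : Pool.Agent.Z700.S_JAC) : Pool.Agent.Z701.S_SG := by
  intro P hP hne n hn hi ε hε
  have h24 := pr_mod8 hP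
  have hN8 : (3 * (pr P : ℤ)) % 8 = 3 := by omega
  have hO := od_of hN8
  have hβ := Pool.Agent.Z141.be_ne P
  have hβ2 : ((3 * (pr P : ℤ) : ℤ) : ZMod 7) = -be P ^ 2 := by
    rw [Pool.Agent.Z141.be_sq hP]
    push_cast
    ring
  have hJ' := hJ (3 * pr P) (by
    rintro ⟨k, hk⟩
    exact Pool.Agent.Z141.pr_not_sq (fun p hp => gd_prime hP hp) hne k (by omega))
  have hcast : ((3 * pr P : ℕ) : ℤ) = 3 * (pr P : ℤ) := by push_cast; rfl
  rw [hcast] at hJ'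
  have hT := sum_ep _ hO hJ'
  have hS := sum_rp (3 * (pr P : ℤ)) (be P) hβ hβ2 1
  rw [hT] at hS
  set N : ℤ := 3 * (pr P : ℤ) with hNdef
  have hr : ∀ i : Fin 8, Sg N ![1, (rp i).1, (rp i).2] (be P) 1 =
      if (rp i).1 ^ 2 = 4 * 1 ^ 2 then Sg N n0 (be P) 1 else Sg N n1 (be P) 1 := by
    intro i
    have hnz : (![1, (rp i).1, (rp i).2] : Fin 3 → ZMod 7) ≠ 0 := by
      intro h
      have := congrFun h 0
      simp at this
    have hiso : (![1, (rp i).1, (rp i).2] : Fin 3 → ZMod 7) 0 ^ 2 +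
        (![1, (rp i).1, (rp i).2] : Fin 3 → ZMod 7) 1 ^ 2 +
        (![1, (rp i).1, (rp i).2] : Fin 3 → ZMod 7) 2 ^ 2 = 0 := iso_rp i
    split_ifs with h
    · apply sg_pos _ _ _ _ hnz hiso
      unfold sgl
      exact if_pos h
    · apply sg_neg _ _ _ _ hnz hiso
      unfold sgl
      rw [if_neg (by exact h)]
      norm_num
  rw [Finset.sum_congr rfl fun i _ => hr i, Fin.sum_univ_eight] at hS
  have e0 : (rp 0).1 ^ 2 = 4 * 1 ^ 2 := by decide
  have e1 : (rp 1).1 ^ 2 = 4 * 1 ^ 2 := by decide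
  have e2 : (rp 2).1 ^ 2 = 4 * 1 ^ 2 := by decide
  have e3 : (rp 3).1 ^ 2 = 4 * 1 ^ 2 := by decide
  have e4 : ¬ (rp 4).1 ^ 2 = 4 * 1 ^ 2 := by decide
  have e5 : ¬ (rp 5).1 ^ 2 = 4 * 1 ^ 2 := by decide
  have e6 : ¬ (rp 6).1 ^ 2 = 4 * 1 ^ 2 := by decide
  have e7 : ¬ (rp 7).1 ^ 2 = 4 * 1 ^ 2 := by decide
  rw [if_pos e0, if_pos e1, if_pos e2, if_pos e3, if_neg e4, if_neg e5, if_neg e6, if_neg e7] at hS
  have hp : pii P = Sg N n0 (be P) 1 + Sg N n0 (be P) (-1) := split_ep N n0 (be P)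
  have k1 := sg_n0 N hO (be P) 1 (Or.inl rfl)
  have k2 := sg_n0 N hO (be P) (-1) (Or.inr rfl)
  rw [neg_neg] at k2
  by_cases hs : sgl n = 1
  · rw [sg_pos _ _ _ _ hn hi hs, hs, hp]
    rcases hε with rfl | rfl <;> linarith
  · have hs' : sgl n = -1 := (sgl_cases n).resolve_left hs
    rw [sg_neg _ _ _ _ hn hi hs, hs', hp]
    rcases hε with rfl | rfl <;> linarith

end Pool.Agent.Z141
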